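import Pool.Agent.J4H45.GT.Cut
import Pool.Agent.J4H45.GT.StmE

/-!
# (EMN) the main theorem for emptiness queries, advantage 49 / 100 (helper57)
-/

set_option autoImplicit false

namespace Pool.Agent.J4H57.GT

open Pool.Agent.W959 Pool.Agent.W959.Ent Pool.Agent.TH457.EntD Pool.Agent.N631.LX
open Pool.Agent.N631.SX Pool.Agent.J4H45.GT

theorem t_EMN (hESE : S_ESE) : S_EMN := by
  classical
  intro N h ht
  obtain ⟨m, hm⟩ : ∃ m : ℕ, m = 1400 * h := ⟨_, rfl⟩
  obtain ⟨n, hn⟩ : ∃ n : ℕ, n = m ^ 2 := ⟨_, rfl⟩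
  obtain ⟨q, hq⟩ : ∃ q : ℕ, q = 100000 * h := ⟨_, rfl⟩
  have ht' : (1 : ℝ) ≤ h := by exact_mod_cast ht
  obtain ⟨k, hk⟩ : ∃ k : ℕ, k = N / (4 * (q + 2)) := ⟨_, rfl⟩
  have hN1 : k * (4 * (q + 2)) ≤ N := by rw [hk]; exact Nat.div_mul_le_self _ _
  have htt : h ≤ h ^ 2 := by nlinarith
  have htt1 : 1 ≤ h ^ 2 := Nat.one_le_pow _ _ ht
  have hn2 : n = 1960000 * h ^ 2 := by rw [hn, hm]; ring
  refine ⟨k, vv n q, ?_, ?_, ?_⟩
  · refine le_trans ?_ hN1
    rw [hq]
    nlinarith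
  · unfold vv
    rw [hn2, hq]
    omega
  intro S κ _ Γ _ _ ℓ Ω _ p D hcard hs hD
  have hs0 : (0 : ℝ) ≤ S := by positivity
  have hn' : (n : ℝ) = 1960000 * (h : ℝ) ^ 2 := by
    rw [hn2]
    push_cast
    ring
  by_cases hNn : N < 4 * n
  · have h1 : (N : ℝ) ≤ 4 * n := by exact_mod_cast hNn.le
    rw [hn'] at h1
    calc (N : ℝ) ^ 2 ≤ (4 * (1960000 * (h : ℝ) ^ 2)) ^ 2 :=
          pow_le_pow_left₀ (by positivity) h1 2
      _ = 61465600000000 * (h : ℝ) ^ 4 * 1 := by ring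
      _ ≤ 10 ^ 31 * (h : ℝ) ^ 4 * ((S : ℝ) + 1) := by
          apply mul_le_mul _ (by linarith) (by norm_num) (by positivity)
          exact mul_le_mul_of_nonneg_right (by norm_num) (by positivity)
  · push Not at hNn
    have hqn : q + 2 ≤ n := by
      rw [hn2, hq]
      omega
    have hk1 : 1 ≤ k := by
      rw [hk]
      rw [Nat.one_le_div_iff (by omega)]
      omega
    have hsize : ∀ (i0 j0 : Fin k) (x y : AA n k q),
        ∑ i, (famX i0 x i).card + ∑ j, (famY j0 y j).card ≤ N := by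
      intro i0 j0 x y
      have h1 := sizeX i0 x
      have h2 := sizeY j0 y
      have h3 : k * (4 * (q + 2)) = 4 * (k * (q + 2)) := by ring
      omega
    have hN2 : N ≤ (k + 1) * (4 * (q + 2)) := by
      have := Nat.lt_div_mul_add (a := N) (b := 4 * (q + 2)) (by omega)
      rw [← hk] at this
      have h2 : (k + 1) * (4 * (q + 2)) = k * (4 * (q + 2)) + 4 * (q + 2) := by ring
      omega
    have hN2' : (N : ℝ) ≤ ((k : ℝ) + 1) * (4 * ((q : ℝ) + 2)) := by exact_mod_cast hN2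
    obtain ⟨hp, hp1, hcor⟩ := hD
    have hq1 : 1 ≤ q := by omega
    have hm2 : (2 : ℝ) ≤ m := by
      have : 2 ≤ m := by omega
      exact_mod_cast this
    have hinv0 : 0 ≤ 1 / (m : ℝ) := by positivity
    have hr1 : 0 ≤ 1 - 1 / (m : ℝ) := by
      have : 1 / (m : ℝ) ≤ 1 := by
        rw [div_le_one (by linarith)]
        linarith
      linarith
    -- wrong answers
    let wr : Ω → Fin k × Fin k → AA n k q → AA n k q → Prop := fun ω pr x y =>
      ¬ ((((D ω).query pr.1 pr.2).cut ℓ h).out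
        ((D ω).cell (famX pr.1 x) (famY pr.2 y)) = true ↔ ¬ conj x.1 y.1 = zero n)
    have hpt : ∀ (pr : Fin k × Fin k) (x y : AA n k q),
        ∑ ω, p ω * ind (wr ω pr x y) ≤ 1 / 100 := by
      intro pr x y
      have h1 := hcor (famX pr.1 x) (famY pr.2 y) (hsize _ _ _ _) pr.1 pr.2
      have h0 := pair_iff pr x y
      let gd : Ω → Prop := fun ω => (((D ω).query pr.1 pr.2).out
          ((D ω).cell (famX pr.1 x) (famY pr.2 y)) = true ↔
            (famX pr.1 x pr.1 ∩ famY pr.2 y pr.2).Nonempty) ∧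
          ((D ω).query pr.1 pr.2).cost ℓ ((D ω).cell (famX pr.1 x) (famY pr.2 y)) ≤ h
      have h1' : (1 / 2 + 49 / 100 : ℝ) ≤ ∑ ω, p ω * ind (gd ω) := by
        refine h1.trans (le_of_eq ?_)
        rw [Finset.sum_filter]
        refine Finset.sum_congr rfl fun ω _ => ?_
        by_cases hg : gd ω
        · rw [if_pos hg, ind_true hg, mul_one]
        · rw [if_neg hg, ind_false hg, mul_zero]
      have h2 : ∀ ω, p ω * ind (wr ω pr x y) ≤ p ω - p ω * ind (gd ω) := by
        intro ω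
        by_cases hg : gd ω
        · have h3 : ¬ wr ω pr x y := by
            simp only [wr, not_not]
            rw [cut_out _ _ _ _ hg.2, ← h0]
            exact hg.1
          rw [ind_false h3, ind_true hg]
          simp
        · rw [ind_false hg, mul_zero, sub_zero]
          exact mul_le_of_le_one_right (hp ω) (ind_le_one _)
      refine (Finset.sum_le_sum fun ω _ => h2 ω).trans ?_
      rw [Finset.sum_sub_distrib, hp1]
      linarith
    have hpair : ∀ pr : Fin k × Fin k, ∑ ω, p ω * EE (q := q) (1 / (m : ℝ))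
        (fun x y : AA n k q => ind (wr ω pr x y)) ≤ 1 / 100 := by
      intro pr
      have e1 : ∑ ω, p ω * EE (q := q) (1 / (m : ℝ))
          (fun x y : AA n k q => ind (wr ω pr x y)) =
          EE (1 / (m : ℝ)) (fun x y => ∑ ω, p ω * ind (wr ω pr x y)) := by
        rw [EE_sum]
        refine Finset.sum_congr rfl fun ω _ => ?_
        rw [EE_mul]
      rw [e1]
      refine (EE_mono hinv0 hr1 fun x y => hpt pr x y).trans ?_
      rw [EE_const hq1]
    have htot : ∑ pr : Fin k × Fin k, ∑ ω, p ω * EE (q := q) (1 / (m : ℝ))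
        (fun x y : AA n k q => ind (wr ω pr x y)) ≤ (k : ℝ) ^ 2 * (1 / 100) := by
      refine (Finset.sum_le_sum fun pr _ => hpair pr).trans (le_of_eq ?_)
      rw [Finset.sum_const, Finset.card_univ, Fintype.card_prod, Fintype.card_fin, nsmul_eq_mul]
      push_cast
      ring
    rw [Finset.sum_comm] at htot
    have hlow : ∀ ω, p ω * (((k : ℝ) ^ 2 - (1 + 10 ^ 18 * (h : ℝ) ^ 2 * S)) * (1 / 80)) ≤
        ∑ pr : Fin k × Fin k, p ω * EE (q := q) (1 / (m : ℝ))
        (fun x y : AA n k q => ind (wr ω pr x y)) := by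
      intro ω
      rw [← Finset.mul_sum]
      exact mul_le_mul_of_nonneg_left
        (hESE k q n m h S κ Γ ℓ (D ω) ht hm hn hq hcard (hs ω)) (hp ω)
    have hlow2 : ((k : ℝ) ^ 2 - (1 + 10 ^ 18 * (h : ℝ) ^ 2 * S)) * (1 / 80) ≤
        (k : ℝ) ^ 2 * (1 / 100) := by
      refine le_trans ?_ htot
      refine le_trans (le_of_eq ?_) (Finset.sum_le_sum fun ω _ => hlow ω)
      rw [← Finset.sum_mul, hp1, one_mul]
    have hk2 : (k : ℝ) ^ 2 ≤ 5 * (1 + 10 ^ 18 * (h : ℝ) ^ 2 * S) := by linarith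
    have hk1' : (1 : ℝ) ≤ k := by exact_mod_cast hk1
    have hq' : (q : ℝ) = 100000 * h := by rw [hq]; push_cast; ring
    have hN4 : (N : ℝ) ≤ 800016 * (h : ℝ) * k := by
      refine hN2'.trans ?_
      rw [hq']
      have h1 : (k : ℝ) + 1 ≤ 2 * k := by linarith
      have h2 : 4 * (100000 * (h : ℝ) + 2) ≤ 400008 * h := by linarith
      calc ((k : ℝ) + 1) * (4 * (100000 * (h : ℝ) + 2)) ≤ 2 * k * (400008 * h) :=
            mul_le_mul h1 h2 (by positivity) (by positivity)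
        _ = _ := by ring
    have hh2 : (h : ℝ) ^ 2 ≤ (h : ℝ) ^ 4 := pow_le_pow_right₀ ht' (by norm_num)
    calc (N : ℝ) ^ 2 ≤ (800016 * (h : ℝ) * k) ^ 2 := pow_le_pow_left₀ (by positivity) hN4 2
      _ = 640025600256 * (h : ℝ) ^ 2 * (k : ℝ) ^ 2 := by ring
      _ ≤ 640025600256 * (h : ℝ) ^ 2 * (5 * (1 + 10 ^ 18 * (h : ℝ) ^ 2 * S)) :=
          mul_le_mul_of_nonneg_left hk2 (by positivity)
      _ = 3200128001280 * (h : ℝ) ^ 2 + 3200128001280 * 10 ^ 18 * ((h : ℝ) ^ 4 * S) := by ring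
      _ ≤ 3200128001280 * (h : ℝ) ^ 4 + 3200128001280 * 10 ^ 18 * ((h : ℝ) ^ 4 * S) := by
          have := mul_le_mul_of_nonneg_left hh2 (by norm_num : (0 : ℝ) ≤ 3200128001280)
          linarith
      _ ≤ 10 ^ 31 * (h : ℝ) ^ 4 + 10 ^ 31 * ((h : ℝ) ^ 4 * S) := by
          apply add_le_add
          · exact mul_le_mul_of_nonneg_right (by norm_num) (by positivity)
          · exact mul_le_mul_of_nonneg_right (by norm_num) (by positivity)
      _ = _ := by ring

end Pool.Agent.J4H57.GT
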